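import Mathlib

/-! Squad GLE (MP_74088a_nt, Gleason polynomials), definitions.

MAIN THEOREM. For every `ε > 0` there is `C` such that for all `D ≥ 1` at most `C D ^ (1 + ε)`
irreducible polynomials of degree at most `D` over the rationals have all their roots in the
Mandelbrot set. -/

namespace Pool.Agent.GLE

open Polynomial MeasureTheory

/-- critical orbit `0, c, c ^ 2 + c, ...` in any commutative ring; `av m X` is the polynomial -/
def av {R : Type} [CommRing R] : ℕ → R → R
  | 0, _ => 0
  | (m + 1), c => (av m c) ^ 2 + c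

/-- bounded critical orbit (Mandelbrot set) -/
def inM (z : ℂ) : Prop := ∀ j, ‖av j z‖ ≤ 2

/-- set of complex roots of an integer polynomial -/
noncomputable def rt (g : ℤ[X]) : Finset ℂ := (g.map (Int.castRingHom ℂ)).roots.toFinset

/-- power sum of the complex roots with multiplicity -/
noncomputable def psm (g : ℤ[X]) (k : ℕ) : ℂ :=
  ((g.map (Int.castRingHom ℂ)).roots.map (fun z => z ^ k)).sum

/-- good family: distinct irreducible monic integer polynomials of degree at most `D` with all
roots in the Mandelbrot set -/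
def GF (D r : ℕ) (g : Fin r → ℤ[X]) : Prop :=
  (∀ i, (g i).Monic) ∧ (∀ i, Irreducible (g i)) ∧ Function.Injective g ∧
    (∀ i, (g i).natDegree ≤ D) ∧ (∀ i, ∀ z ∈ rt (g i), inM z)

/-- gradient of a real function on the plane, as a complex number -/
noncomputable def grad (φ : ℂ → ℝ) (z : ℂ) : ℂ := ⟨fderiv ℝ φ z 1, fderiv ℝ φ z Complex.I⟩

/-- gradient of `log (max ‖z‖ ε)` -/
noncomputable def Vg (ε : ℝ) (z : ℂ) : ℂ := if ‖z‖ ≤ ε then 0 else z / ((‖z‖ ^ 2 : ℝ) : ℂ)

/-- smeared logarithmic kernel: average over the circle `|z - a| = ε` of `log (max ‖z - b‖ ε)` -/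
noncomputable def Ek (ε : ℝ) (a b : ℂ) : ℝ :=
  Real.circleAverage (fun z => Real.log (max ‖z - b‖ ε)) a ε

/-- smooth cut off, equal to one for `‖av m z‖ ≤ 4` and to zero for `‖av m z‖ ≥ 16` -/
noncomputable def Th (m : ℕ) (z : ℂ) : ℝ :=
  Real.smoothTransition ((256 - ‖av m z‖ ^ 2) / 240)

/-- coefficients of the power series square root with constant term `1` of the power series
`∑ s n * t ^ n` (the value `s 0` is ignored, it is `1` in the applications) -/
noncomputable def sqc {K : Type} [CommRing K] [Algebra ℝ K] (s : ℕ → K) : ℕ → K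
  | 0 => 1
  | (n + 1) => (1 / 2 : ℝ) • (s (n + 1) - ∑ i : Fin n, sqc s (i + 1) * sqc s (n - i))

/-- coefficients of `A_L`, where `A_0 = 1` and `A_(L+1) (t) ^ 2 = A_L (t ^ 2) - c * t ^ 2` -/
noncomputable def al {K : Type} [CommRing K] [Algebra ℝ K] (c : K) : ℕ → ℕ → K
  | 0 => fun n => if n = 0 then 1 else 0
  | (L + 1) => sqc (fun n => (if n % 2 = 0 then al c L (n / 2) else 0) - (if n = 2 then c else 0))

/-- Faber polynomials of level `L` at the point `x` -/
noncomputable def Fb {K : Type} [CommRing K] [Algebra ℝ K] (c x : K) (L : ℕ) : ℕ → K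
  | 0 => 1
  | (n + 1) => x * Fb c x L n - ∑ i : Fin n, al c L (i + 1) * Fb c x L (n - i) -
      ((n + 1 : ℕ) : K) * al c L (n + 1)

/-- the analytic function `A_L` -/
noncomputable def As (c : ℂ) (L : ℕ) (t : ℂ) : ℂ := ∑' n, al c L n * t ^ n

/-- the polynomial `P_k` (in `c`), block length `b`: product over the digits `d_j` of `k` in base
`2 ^ b` of the Faber polynomials `F_(d_j)` at the point `a_(1 + b j)` -/
noncomputable def Pk {K : Type} [CommRing K] [Algebra ℝ K] (b : ℕ) (c : K) (k : ℕ) : K :=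
  ∏ j ∈ Finset.range (k + 1), Fb c (av (1 + b * j) c) b ((k / (2 ^ b) ^ j) % 2 ^ b)

/-- the test function of index `k`: `Re P_k` times the cut off of level `m = 1 + b J`, where
`(2 ^ b) ^ (J - 1) ≤ k < (2 ^ b) ^ J` -/
noncomputable def ph (b k : ℕ) (z : ℂ) : ℝ :=
  (Pk b z k).re * Th (1 + b * (Nat.log (2 ^ b) k + 1)) z

/-- the Dirichlet energy of the test function of index `k` -/
noncomputable def tau (b k : ℕ) : ℝ := ∫ z, ‖grad (ph b k) z‖ ^ 2

end Pool.Agent.GLE
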