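import Pool.Agent.GLE.Defs

/-! Squad GLE, statements of blocks A (algebra), B (bounded critical orbits), F (Faber polynomials
of `z ^ 2 + c`), P (the polynomials `P_k`). -/

namespace Pool.Agent.GLE

open Polynomial MeasureTheory

/-- **DIV.** Integer power sums and the divisibility of the first nonzero difference.
PROOF. Let `e_k` be the elementary symmetric functions of the complex roots of `g` (with
multiplicity); they are integers because they are up to sign the coefficients of the integer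
polynomial `g` (`Multiset.prod_X_sub_C_coeff`, `Polynomial.coeff_eq_esymm_roots_of_card`,
`IsAlgClosed.splits`). Newton:
`k e_k = (-1) ^ (k+1) ∑_(i+j=k, i<k) (-1) ^ i e_i p_j`
(`MvPolynomial.mul_esymm_eq_sum`, evaluated at the roots indexed by `Fin N`; or prove it directly).
(a) `p_0 = natDegree`, and `p_k` is an integer by strong induction on `k`:
`p_k = ± k e_k ∓ ∑_(0<i<k) ...`.
(b) Let `P` be the product of the `g_i ^ (δ_i)` over `δ_i > 0` and `Q` the product of the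
`g_i ^ (-δ_i)` over `δ_i < 0`; both are monic integer polynomials and
`p_k(P) - p_k(Q) = ∑ δ_i p_k(g_i)` (roots of a product = sum of multisets). So the power sums of
index `k < n` agree, in particular (k = 0) the degrees. By Newton (characteristic `0`, strong
induction) `e_k(P) = e_k(Q)` for `k < n`, and subtracting the two Newton identities of index `n`
gives `p_n(P) - p_n(Q) = ± n (e_n(P) - e_n(Q))`, an integer multiple of `n`.
(Alternative to P and Q: work with power series, `U = ∏ (reverse g_i) ^ δ_i` as unit of `ℤ⟦X⟧`,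
`X U' = - U ∑ σ_k X ^ k`.) -/
def DivStmt : Prop :=
  (∀ g : ℤ[X], g.Monic → ∀ k, ∃ m : ℤ, psm g k = m) ∧
  ∀ (r : ℕ) (g : Fin r → ℤ[X]), (∀ i, (g i).Monic) → ∀ (δ : Fin r → ℤ) (n : ℕ), 1 ≤ n →
    (∀ k < n, ∑ i, (δ i : ℂ) * psm (g i) k = 0) →
    ∃ m : ℤ, ∑ i, (δ i : ℂ) * psm (g i) n = n * m

/-- **IDX.** Lower bound of an integer determinant by successive divisibility.
PROOF. Let `L = A ℤ^n` (range of `Matrix.mulVecLin A`, or of `A.toLin'`), a subgroup of `ℤ^n` of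
index `|det A|` (`Submodule.natAbs_det_equiv`, file Mathlib/LinearAlgebra/FreeModule/Finite/
CardQuotient; `A` is injective because `det A ≠ 0`). The map from the box
`∏_j {0, ..., d_j - 1}` to `ℤ^n / L` is injective: if `v - w = A δ` with `v ≠ w` in the box let `j`
be the least index with `v_j ≠ w_j`; then `(A δ)_l = 0` for `l < j`, so `d_j` divides
`(A δ)_j = v_j - w_j`, which has absolute value `< d_j`, so `v_j = w_j`, contradiction. Compare
cardinals (the quotient is finite since the index is `|det A| ≠ 0`). -/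
def IdxStmt : Prop :=
  ∀ (n : ℕ) (A : Matrix (Fin n) (Fin n) ℤ) (d : Fin n → ℕ), A.det ≠ 0 → (∀ j, 0 < d j) →
    (∀ (δ : Fin n → ℤ) (j : Fin n), (∀ l < j, A.mulVec δ l = 0) → (d j : ℤ) ∣ A.mulVec δ j) →
    ∏ j, (d j : ℤ) ≤ |A.det|

/-- **PVT.** Pivot rows. `W k` (for `k = 0, 1, ...`) are integer vectors of length `r + 1`; the
vectors `W k`, `k < Q`, separate the integer vectors `δ`.
PROOF. For `k : ℕ` let `V_k` be the rational (or real) span of the `W l`, `l < k`, in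
`Fin (r+1) → ℚ`. `V_Q` is everything (otherwise there is a nonzero rational functional vanishing on
it, and after clearing denominators a nonzero integer `δ` with all `∑ δ_i W k i = 0`). The set
`{k < Q : W k ∉ V_k}` has exactly `r + 1` elements (the dimension of `V_k` increases by one exactly
at these `k`); let `κ` be its increasing enumeration (`Finset.orderEmbOfFin`). `W 0 ≠ 0` means
`0` is in the set, so `κ 0 = 0`. For every `k ≤ κ j` (and more precisely `k < κ (j+1)`) `W k` is in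
the span of the `W (κ l)` with `κ l ≤ k`; in particular the rows `W k`, `k < κ j`, are
combinations of the `W (κ l)`, `l < j`. The matrix `A j i = W (κ j) i` has linearly independent
rows, so `det A ≠ 0`. If `(A δ)_l = 0` for all `l < j` then `∑ δ_i W k i = 0` for all `k < κ j`, so
for `j ≥ 1` (then `κ j ≥ 1`) the hypothesis gives `κ j ∣ (A δ)_j`. IDX with `d_0 = 1`,
`d_j = κ j`: `∏_(j≥1) κ j ≤ |det A|`. The matrix of the conclusion is `T A` where `T` is lower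
triangular with ones on the diagonal (real entries), so it has the same determinant
(`Matrix.det_of_lowerTriangular`). -/
def PvtStmt : Prop :=
  ∀ (r : ℕ) (W : ℕ → Fin (r + 1) → ℤ) (Q : ℕ), W 0 ≠ 0 →
    (∀ δ : Fin (r + 1) → ℤ, (∀ k < Q, ∑ i, δ i * W k i = 0) → δ = 0) →
    (∀ n, 1 ≤ n → ∀ δ : Fin (r + 1) → ℤ, (∀ k < n, ∑ i, δ i * W k i = 0) →
      (n : ℤ) ∣ ∑ i, δ i * W n i) →
    ∃ κ : Fin (r + 1) → ℕ, StrictMono κ ∧ κ 0 = 0 ∧ κ (Fin.last r) < Q ∧
      ∀ C : Fin (r + 1) → ℕ → ℝ,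
        ∏ j : Fin r, (κ j.succ : ℝ) ≤ |(Matrix.of fun (j i : Fin (r + 1)) =>
          (W (κ j) i : ℝ) + ∑ k ∈ Finset.range (κ j), C j k * (W k i : ℝ)).det|

/-- **ROO.** Roots of irreducible monic integer polynomials.
PROOF. (a) `g` irreducible and monic in `ℤ[X]` is irreducible over `ℚ` (Gauss,
`Polynomial.Monic.irreducible_iff_irreducible_map_fraction_map` or
`IsPrimitive.Int.irreducible_iff_irreducible_map_cast`), so separable, so its complex roots are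
simple (`Polynomial.nodup_roots`), and there are `natDegree g` of them (`IsAlgClosed.splits`).
(b) two distinct such polynomials with a common complex root `z` are both associated to the
minimal polynomial of `z` over `ℤ` or `ℚ` (`minpoly.isIntegrallyClosed_eq_field_fractions'`,
`minpoly.eq_of_irreducible_of_monic`), so equal.
(c) `g(z) = ∏ (z - a)`, so `g'(a) = ∏_(b≠a) (a - b)`, and
`∏_a g'(a)` is an integer (resultant of `g, g'`; or: it is the norm from `AdjoinRoot`; or a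
symmetric function of the roots; or: it is a rational number, fixed by the Galois group, and an
algebraic integer) and it is not zero, so its absolute value is at least `1`; take logarithms. -/
def RooStmt : Prop :=
  (∀ g : ℤ[X], g.Monic → Irreducible g →
    (g.map (Int.castRingHom ℂ)).Separable ∧ 1 ≤ g.natDegree) ∧
  (∀ g : ℤ[X], g.Monic → (g.map (Int.castRingHom ℂ)).Separable →
    (rt g).card = g.natDegree ∧ (g.map (Int.castRingHom ℂ)).roots = (rt g).val ∧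
    (∀ z : ℂ, z ∈ rt g ↔ aeval z g = 0) ∧
    (∀ z : ℂ, aeval z g = ∏ a ∈ rt g, (z - a)) ∧
    0 ≤ ∑ a ∈ rt g, ∑ b ∈ (rt g).erase a, Real.log ‖a - b‖) ∧
  (∀ g h : ℤ[X], g.Monic → h.Monic → Irreducible g → Irreducible h → g ≠ h →
    Disjoint (rt g) (rt h))

/-- **PIV.** The determinant of the values of real monic polynomials of the pivot degrees.
PROOF. Let `W k i` be the integer `psm (g i) k` (DIV, first part), `Q = ∑ natDegree (g i)`.
`W 0 i = natDegree (g i) ≥ 1`, so `W 0 ≠ 0`. If `∑_i δ_i psm (g i) k = 0` for all `k < Q` then the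
function equal to `δ_i` on `rt (g i)` (the sets are pairwise disjoint, with `natDegree (g i)`
elements, ROO) is a relation of the Vandermonde matrix of the `Q` distinct roots
(`Matrix.det_vandermonde_ne_zero_iff`), so it is zero and `δ = 0` (the sets are not empty). DIV
gives the divisibility. PVT with `C j k = coeff k` of `P j`: for a real polynomial `P` of degree
`κ`, monic, `∑_(z ∈ rt (g i)) aeval z P = W κ i + ∑_(k<κ) P.coeff k * W k i` is real, so it equals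
the sum of the real parts. -/
def PivStmt : Prop :=
  ∀ (r : ℕ) (g : Fin (r + 1) → ℤ[X]), (∀ i, (g i).Monic) → (∀ i, Irreducible (g i)) →
    Function.Injective g →
    ∃ κ : Fin (r + 1) → ℕ, StrictMono κ ∧ κ 0 = 0 ∧
      κ (Fin.last r) < ∑ i, (g i).natDegree ∧
      ∀ P : Fin (r + 1) → ℝ[X], (∀ j, (P j).Monic) → (∀ j, (P j).natDegree = κ j) →
        ∏ j : Fin r, (κ j.succ : ℝ) ≤ |(Matrix.of fun (j i : Fin (r + 1)) =>
          ∑ z ∈ rt (g i), (aeval z (P j)).re).det|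

/-- **HAD.** Hadamard inequality for a mixed Gram matrix in a real inner product space.
PROOF. If the `y i` are linearly dependent then the columns of the matrix are dependent and the
determinant is `0`. Otherwise let `V` be their span, of dimension `n`, with an orthonormal basis
`e` (`stdOrthonormalBasis`). `⟪x j, y i⟫ = ∑_l ⟪x j, e l⟫ ⟪e l, y i⟫`, so the matrix is a product
`X Y` of two square matrices with rows (columns) of norm at most `‖x j‖` (Bessel) and `= ‖y i‖`.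
Hadamard for real square matrices: `|det X| ≤ ∏ ‖row j‖`, from `Orientation.abs_volumeForm_apply_le`
or `OrthonormalBasis` and `Basis.det` (n = 0 is trivial). -/
def HadStmt : Prop :=
  ∀ (H : Type) [NormedAddCommGroup H] [InnerProductSpace ℝ H] (n : ℕ) (x y : Fin n → H),
    |(Matrix.of fun j i : Fin n => (inner ℝ (x j) (y i) : ℝ)).det| ≤ (∏ j, ‖x j‖) * ∏ i, ‖y i‖

/-- **HAL.** HAD in the space `L^2(ℂ; ℂ) ⊕ ℝ`, in terms of integrals.
PROOF. `H = WithLp 2 (Lp ℂ 2 (volume : Measure ℂ) × ℝ)` as a real inner product space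
(`MeasureTheory.L2.innerProductSpace` with `𝕜 = ℝ`), `x j = (toLp (u j), s j)`,
`y i = (toLp (v i), t i)`. `⟪x j, y i⟫ = ∫ inner ℝ (u j z) (v i z) + s j * t i` and
`inner ℝ w w' = (conj w * w').re` on `ℂ`, symmetric; `‖x j‖ ^ 2 = ∫ ‖u j z‖ ^ 2 + s j ^ 2`. Square
HAD. -/
def HalStmt : Prop :=
  ∀ (n : ℕ) (u v : Fin n → ℂ → ℂ) (s t : Fin n → ℝ), (∀ j, MemLp (u j) 2 volume) →
    (∀ i, MemLp (v i) 2 volume) →
    (Matrix.of fun j i : Fin n =>
      (∫ z, ((starRingEnd ℂ) (v i z) * u j z).re) + s j * t i).det ^ 2 ≤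
      (∏ j, ((∫ z, ‖u j z‖ ^ 2) + s j ^ 2)) * ∏ i, ((∫ z, ‖v i z‖ ^ 2) + t i ^ 2)

/-- **ESC.** Escape.
PROOF. (a) If `‖c‖ > 16` then `‖av i c‖ ≥ ‖c‖` for all `i ≥ 1` by induction
(`‖a ^ 2 + c‖ ≥ ‖a‖ ^ 2 - ‖c‖ ≥ ‖c‖ ^ 2 - ‖c‖ ≥ ‖c‖`), contradiction with `‖av m c‖ ≤ 16`. So
`‖c‖ ≤ 16`, and if `‖av j c‖ > 16` then `‖av (j+1) c‖ ≥ ‖av j c‖ ^ 2 - 16 > 16`, and so on up to
`m`, contradiction. (b) if `av n c = 0`, the orbit is periodic; `‖c‖ ≤ 2`: otherwise
`‖av i c‖ ≥ ‖c‖ > 0` for `i ≥ 1`; and if some `‖av j c‖ > 2 ≥ ‖c‖` then the norms increase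
strictly from `j` on (`x ^ 2 - 2 > x` for `x > 2`), and never return to `0`; but `av (q n) c = 0`
for every `q`. -/
def EscStmt : Prop :=
  (∀ (m : ℕ) (c : ℂ), ‖av m c‖ ≤ 16 → ∀ j, 1 ≤ j → j ≤ m → ‖av j c‖ ≤ 16) ∧
  (∀ (n : ℕ) (c : ℂ), 1 ≤ n → av n c = 0 → inM c)

/-- **NBH.** Points near the Mandelbrot set.
PROOF. Put `e_j = ‖av j (a+h) - av j a‖`. `e_0 = 0` and
`e_(j+1) ≤ e_j (e_j + 2 ‖av j a‖) + ‖h‖ ≤ e_j (e_j + 4) + ‖h‖`. By induction on `j ≤ m`:
`e_j ≤ ‖h‖ (5 ^ j - 1) / 4` (it is at most `1 / 4`, so `e_j + 4 ≤ 5`). So `e_m ≤ 1`. -/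
def NbhStmt : Prop :=
  ∀ (m : ℕ) (a h : ℂ), inM a → ‖h‖ ≤ (1 / 5 : ℝ) ^ m → ‖av m (a + h) - av m a‖ ≤ 1

/-- **SEP.** The integer polynomials `av m X`.
PROOF. Monic of degree `2 ^ (m-1)` by induction on `m ≥ 1`. Evaluation: `av` is natural for ring
homomorphisms. Separable over `ℂ`: if `z` is a double root then `av m z = 0` and the derivative
`2 * av (m-1) z * (av (m-1))' z + 1 = 0`; `z` is an algebraic integer (root of a monic integer
polynomial), so `y = av (m-1) z * (av (m-1))' z` is an algebraic integer equal to `-1/2`,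
contradiction (`IsIntegrallyClosed ℤ`). A polynomial over `ℂ` without double root is separable.
Roots are in `M` by ESC (b). The function `av m` has derivative the evaluation of the derivative
polynomial. -/
def SepStmt : Prop :=
  ∀ m : ℕ, 1 ≤ m → (av m (X : ℤ[X])).Monic ∧ (av m (X : ℤ[X])).natDegree = 2 ^ (m - 1) ∧
    ((av m (X : ℤ[X])).map (Int.castRingHom ℂ)).Separable ∧
    (∀ z : ℂ, aeval z (av m (X : ℤ[X])) = av m z) ∧
    (av m (X : ℝ[X])).Monic ∧ (av m (X : ℝ[X])).natDegree = 2 ^ (m - 1) ∧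
    (∀ z : ℂ, aeval z (av m (X : ℝ[X])) = av m z) ∧
    (av m (X : ℂ[X])).Monic ∧ (av m (X : ℂ[X])).natDegree = 2 ^ (m - 1) ∧
    (∀ z : ℂ, (av m (X : ℂ[X])).eval z = av m z) ∧
    (∀ z : ℂ, (derivative (av m (X : ℂ[X]))).eval z = deriv (av m) z) ∧
    (∀ z ∈ rt (av m (X : ℤ[X])), inM z)

/-- **SQA.** Square root of a nonvanishing power series.
PROOF. `S t = ∑ s n t ^ n` is analytic on the ball `‖t‖ < ρ`, has no zero there and `S 0 = 1`.
`S' / S` has a primitive on the ball (`DifferentiableOn.isExactOn_ball`, `IsExactOn.with_val_at`,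
file Mathlib/Analysis/Complex/HasPrimitives), so `S = exp ℓ` with `ℓ 0 = 0`, and `q = exp (ℓ / 2)` is
analytic on the ball with `q ^ 2 = S`, `q 0 = 1`. Being differentiable on the ball, `q` is the sum of
its Taylor series `∑ q_n t ^ n` on the whole ball (`DifferentiableOn.hasFPowerSeriesOnBall` on
smaller balls, `Complex.hasSum_taylorSeries_on_ball`). The Cauchy product (series in `ℂ` converge
absolutely) and the uniqueness of power series coefficients (`HasFPowerSeriesAt.eq_formalMultilinearSeries`)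
give `∑_(i+j=n) q_i q_j = s n` for all `n`, and `q_0 = 1`, which is the recursion of `sqc`, so
`q_n = sqc s n`. -/
def SqaStmt : Prop :=
  ∀ (s : ℕ → ℂ) (ρ : ℝ), 0 < ρ → s 0 = 1 → (∀ t : ℂ, ‖t‖ < ρ → Summable (fun n => s n * t ^ n)) →
    (∀ t : ℂ, ‖t‖ < ρ → ∑' n, s n * t ^ n ≠ 0) →
    ∀ t : ℂ, ‖t‖ < ρ → Summable (fun n => sqc s n * t ^ n) ∧
      (∑' n, sqc s n * t ^ n) ^ 2 = ∑' n, s n * t ^ n

/-- **INJ.** The inverse Boettcher map of finite level, `ψ_L (w) = w A_L (1 / w)`, `t = 1 / w`.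
PROOF. Induction on `L`. Level `0`: `al c 0 n = [n = 0]`, `As c 0 t = 1`, all clear. Level `L + 1`:
let `f z = z ^ 2 + c`, `dom_L = {t : 16 ‖t‖ ^ (2 ^ L) < 1}`, a ball; `t ∈ dom_(L+1)` iff
`t ^ 2 ∈ dom_L`. With `s n = [n even] al c L (n/2) - [n = 2] c` we have `s 0 = 1` (all `al c L 0 = 1`)
and for `t ∈ dom_(L+1)`: `∑ s n t ^ n = As c L (t ^ 2) - c t ^ 2`. It is not zero: at `t = 0` it is
`1`; if `t ≠ 0` and it is `0`, then `As c L (t^2) / t^2 = c`, and by induction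
`f^[L] c = (1 / t^2) ^ (2 ^ L) = (1/t) ^ (2 ^ (L+1))`, of norm `> 16`; but
`f^[L] c = f^[L+1] 0 = av (L+1) c` has norm `≤ 16`. So SQA applies (ball of radius
`(1/16) ^ (1 / 2^(L+1))`), and `As c (L+1) t ^ 2 = As c L (t^2) - c t ^ 2`. Hence for `t ≠ 0`:
`f (As c (L+1) t / t) = As c L (t^2) / t^2`, and the iterate formula follows by induction.
`al c (L+1) n = 0` for odd `n` (by strong induction on `n`: in each product one index is odd), so
`As c (L+1)` is even. INJECTIVITY: if `As c (L+1) t / t = As c (L+1) t' / t'` apply `f`: by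
induction `t ^ 2 = t' ^ 2`; if `t' = - t` then evenness gives `As c (L+1) t / t = 0`, so
`As c (L+1) t = 0`, contradiction with nonvanishing. -/
def InjStmt : Prop :=
  ∀ (L : ℕ) (c : ℂ), (∀ j, 1 ≤ j → j ≤ L → ‖av j c‖ ≤ 16) →
    (∀ t : ℂ, 16 * ‖t‖ ^ (2 ^ L) < 1 → Summable (fun n => al c L n * t ^ n)) ∧
    (∀ t : ℂ, t ≠ 0 → 16 * ‖t‖ ^ (2 ^ L) < 1 →
      (fun z : ℂ => z ^ 2 + c)^[L] (As c L t / t) = (1 / t) ^ (2 ^ L)) ∧
    Set.InjOn (fun t : ℂ => As c L t / t) {t : ℂ | t ≠ 0 ∧ 16 * ‖t‖ ^ (2 ^ L) < 1}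

/-- **BND.** Distance of two points with different size of the `L`-th iterate.
PROOF. `f z = z ^ 2 + c`. `‖f^[j] x‖ ≤ 16` for `0 ≤ j ≤ L`: if `‖f^[j] x‖ > 16 ≥ ‖c‖` then
`‖f^[j+1] x‖ ≥ ‖f^[j] x‖ ^ 2 - 16 > 16`, and so on up to `L`. In the same way `‖f^[j] u‖ ≤ 64` for
`0 ≤ j ≤ L`. For `j = 0`: `‖u - x‖ ≤ 80`. And
`f^[j+1] u - f^[j+1] x = (f^[j] u + f^[j] x) (f^[j] u - f^[j] x)`, so
`‖f^[L] u - f^[L] x‖ ≤ 80 ^ L ‖u - x‖`, while the left side is at least `32 - 16`. -/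
def BndStmt : Prop :=
  ∀ (L : ℕ) (c x u : ℂ), ‖c‖ ≤ 16 → ‖(fun z : ℂ => z ^ 2 + c)^[L] x‖ ≤ 16 →
    32 ≤ ‖(fun z : ℂ => z ^ 2 + c)^[L] u‖ → ‖(fun z : ℂ => z ^ 2 + c)^[L] u‖ ≤ 64 →
    16 / 80 ^ L ≤ ‖u - x‖ ∧ ‖u - x‖ ≤ 80

/-- **ARE.** Logarithmic area of an injective image.
PROOF. Change of variables (`MeasureTheory.integral_image_eq_integral_abs_det_fderiv_smul`, or the
`lintegral` version): the real derivative of `g` at `t` is multiplication by `deriv g t`, of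
determinant `‖deriv g t‖ ^ 2`. So the integral equals `∫_(g(U)) 1 / ‖ζ‖ ^ 2 ≤ ∫ over
δ ≤ ‖ζ‖ ≤ Δ` of `1 / ‖ζ‖ ^ 2` `= 2 π log (Δ / δ)` (polar coordinates,
`Complex.integral_comp_polarCoord_symm`). -/
def AreStmt : Prop :=
  ∀ (U : Set ℂ) (g : ℂ → ℂ) (δ Δ : ℝ), 0 < δ → δ ≤ Δ → IsOpen U → DifferentiableOn ℂ g U →
    Set.InjOn g U → (∀ t ∈ U, δ ≤ ‖g t‖ ∧ ‖g t‖ ≤ Δ) →
    IntegrableOn (fun t => ‖deriv g t‖ ^ 2 / ‖g t‖ ^ 2) U ∧
    ∫ t in U, ‖deriv g t‖ ^ 2 / ‖g t‖ ^ 2 ≤ 2 * Real.pi * Real.log (Δ / δ)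

/-- **BES.** Bessel inequality on circles, integrated over an annulus.
PROOF. For `0 < ρ < ρ0`: `(1 / 2π) ∫_0^(2π) ‖G (ρ e^(iθ))‖ ^ 2 dθ ≥ ∑_(n ≤ K) ‖F n‖ ^ 2 ρ ^ (2n)`
(Bessel; the coefficient `(1/2π) ∫ G(ρ e^(iθ)) e^(-inθ) dθ = F n ρ ^ n` by integrating the
absolutely convergent series termwise; then expand `∫ ‖G - ∑_(n≤K) F n ρ^n e^(inθ)‖ ^ 2 ≥ 0`).
Polar coordinates (`Complex.integral_comp_polarCoord_symm`): the integral over the annulus is
`∫_(ρ1)^(ρ2) (1/ρ) ∫ ‖G‖ ^ 2 dθ dρ ≥ 2π ∑ ‖F n‖ ^ 2 ∫ ρ ^ (2n-1) dρ`; drop the term `n = 0`. -/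
def BesStmt : Prop :=
  ∀ (F : ℕ → ℂ) (G : ℂ → ℂ) (ρ0 ρ1 ρ2 : ℝ), 0 < ρ1 → ρ1 < ρ2 → ρ2 < ρ0 →
    (∀ t : ℂ, ‖t‖ < ρ0 → HasSum (fun n => F n * t ^ n) (G t)) → ∀ K : ℕ,
    2 * Real.pi * ∑ n ∈ Finset.range K, ‖F (n + 1)‖ ^ 2 *
      ((ρ2 ^ (2 * (n + 1)) - ρ1 ^ (2 * (n + 1))) / (2 * (n + 1))) ≤
      ∫ t in {t : ℂ | ρ1 < ‖t‖ ∧ ‖t‖ < ρ2}, ‖G t‖ ^ 2 / ‖t‖ ^ 2

/-- **GEN.** Generating function of the Faber polynomials.
PROOF. Write `A = As c L` (INJ: power series with coefficients `al c L n` on the ball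
`dom = {16 ‖t‖ ^ (2^L) < 1}`, `A 0 = al c L 0 = 1`). `A t - x t ≠ 0` on `dom`: at `0` it is `1`; if it
is zero with `t ≠ 0` then `A t / t = x` and `f^[L] x = (1/t) ^ (2^L)` has norm `> 16`. So
`G t = (A t - t A' t) / (A t - x t)` is analytic on `dom`, it is the sum of its Taylor series
`∑ G_n t ^ n` there; from `(A - x t) G = A - t A'`, comparing coefficients (Cauchy product and
uniqueness): `∑_(i+j=n) al i * G_j - x G_(n-1) = al n - n al n`, that is `G_0 = 1` and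
`G_(n+1) = x G_n - ∑_(i=1..n) al i * G_(n+1-i) - (n+1) al (n+1)`, the recursion of `Fb`. The
derivative of `A s / s` at `t` is `(A' t t - A t) / t ^ 2`, and dividing by `(A t - x t) / t`
gives `- G t / t`. -/
def GenStmt : Prop :=
  ∀ (L : ℕ) (c x : ℂ), (∀ j, 1 ≤ j → j ≤ L → ‖av j c‖ ≤ 16) →
    ‖(fun z : ℂ => z ^ 2 + c)^[L] x‖ ≤ 16 →
    ∃ G : ℂ → ℂ, ∀ t : ℂ, 16 * ‖t‖ ^ (2 ^ L) < 1 →
      HasSum (fun n => Fb c x L n * t ^ n) (G t) ∧ As c L t - x * t ≠ 0 ∧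
      (t ≠ 0 → DifferentiableAt ℂ (fun s => As c L s / s - x) t ∧
        deriv (fun s => As c L s / s - x) t / (As c L t / t - x) = - (G t / t))

/-- **FAB.** Mean square bound for the Faber polynomials of one block.
PROOF. `g t = As c L t / t - x` on the annulus `U = {t : 1/64 < ‖t‖ ^ (2^L) < 1/32}`, that is
`ρ1 < ‖t‖ < ρ2` with `ρ1 = (1/64) ^ (1/2^L)`, `ρ2 = (1/32) ^ (1/2^L)`. INJ: injective, and the
`L`-th iterate of `As c L t / t` has norm `‖1/t‖ ^ (2^L)` in `(32, 64)`, so BND gives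
`16 / 80 ^ L ≤ ‖g‖ ≤ 80` (`‖c‖ = ‖av 1 c‖ ≤ 16`). ARE and GEN (`‖g'‖ / ‖g‖ = ‖G t‖ / ‖t‖`):
`∫_U ‖G‖ ^ 2 / ‖t‖ ^ 2 ≤ 2 π log (5 * 80 ^ L) ≤ 2 π * 7 L`. BES from below: for `1 ≤ n < 2 ^ L` and
`s = 2 n / 2 ^ L` in `(0, 2)`: `ρ2 ^ (2n) - ρ1 ^ (2n) = 32 ^ (-s) (1 - 2 ^ (-s)) ≥
2 ^ (-10) * (3/8) s` (concavity of `1 - 2 ^ (-s)` on `[0, 2]`), so the weight
`(ρ2 ^ (2n) - ρ1 ^ (2n)) / (2n)` is at least `2 ^ (-10) * (3/8) / 2 ^ L`. -/
def FabStmt : Prop :=
  ∃ C : ℝ, 0 < C ∧ ∀ (L : ℕ) (c x : ℂ), 1 ≤ L → (∀ j, 1 ≤ j → j ≤ L → ‖av j c‖ ≤ 16) →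
    ‖(fun z : ℂ => z ^ 2 + c)^[L] x‖ ≤ 16 →
    ∑ n ∈ Finset.range (2 ^ L), ‖Fb c x L n‖ ^ 2 ≤ 1 + C * L * 2 ^ L

/-- **COE.** The coefficients are polynomials in `c`.
PROOF. Naturality: `sqc`, `al`, `Fb` commute with algebra homomorphisms `ℝ[X] → ℂ` (here
`aeval z`), by strong induction on `n` and induction on `L`. Degrees: `2 * natDegree (sqc s n) ≤ n`
if `2 * natDegree (s n) ≤ n` for all `n`, by strong induction; so `2 * natDegree (al X L n) ≤ n` by
induction on `L` (`[n even] al X L (n/2)` has `2 natDegree ≤ n / 2`, and `X` at `n = 2` has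
`2 * 1 ≤ 2`). Let `p` be monic of degree `q ≥ 1`: by strong induction `Fb X p L n` is monic of
degree `n q`: `p * Fb n` is monic of degree `(n+1) q`; `al (i+1) * Fb (n-i)` has degree
`≤ (i+1)/2 + (n-i) q < (n+1) q`, and `(n+1) al (n+1)` has degree `≤ (n+1)/2 < (n+1) q`. -/
def CoeStmt : Prop :=
  (∀ (L n : ℕ), 2 * (al (X : ℝ[X]) L n).natDegree ≤ n) ∧
  (∀ (z : ℂ) (p : ℝ[X]) (L n : ℕ), aeval z (Fb (X : ℝ[X]) p L n) = Fb z (aeval z p) L n) ∧
  (∀ (p : ℝ[X]) (q L n : ℕ), p.Monic → p.natDegree = q → 1 ≤ q →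
    (Fb (X : ℝ[X]) p L n).Monic ∧ (Fb (X : ℝ[X]) p L n).natDegree = n * q)

/-- **MON.** The polynomials `P_k`.
PROOF. With `B = 2 ^ b ≥ 2`: `k < B ^ (k+1)`, so `k = ∑_(j ≤ k) d_j B ^ j` with
`d_j = (k / B ^ j) % B` (`Nat.ofDigits_digits` or direct induction: `k = (k / B^n) B^n +
∑_(j<n) d_j B^j`). COE with `p = av (1 + b j) X` of degree `2 ^ (b j) = B ^ j` (SEP): the factor `j`
is monic of degree `d_j B ^ j`; the product of monic polynomials is monic, degrees add. Evaluation: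
COE and naturality of `av` (SEP). -/
def MonStmt : Prop :=
  ∀ (b k : ℕ), 1 ≤ b → (Pk b (X : ℝ[X]) k).Monic ∧ (Pk b (X : ℝ[X]) k).natDegree = k ∧
    ∀ z : ℂ, aeval z (Pk b (X : ℝ[X]) k) = Pk b z k

/-- **SUM.** Sum of squares of the `P_k` over all `k < B ^ J`, `B = 2 ^ b`.
PROOF. For `k < B ^ J` the digits of index `j ≥ J` are zero and `Fb _ _ _ 0 = 1`, so
`Pk b z k = ∏_(j<J) F_(d_j) (av (1+bj) z)` (note: `k < B ^ (k+1)` too, so both products are the
product over all `j` below the larger of `J` and `k+1`). The digits give a bijection between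
`k < B ^ J` and functions `j ↦ d_j < B` on `j < J` (induction on `J`: `k = d B ^ J + k'`), so the sum
is `∏_(j<J) ∑_(d<B) ‖Fb z (av (1+bj) z) b d‖ ^ 2`. With `f w = w ^ 2 + z`:
`f^[b] (av (1+bj) z) = av (1 + b (j+1)) z` has norm `≤ 16` by ESC (`1 + b(j+1) ≤ 1 + bJ`), and
`‖av i z‖ ≤ 16` for `1 ≤ i ≤ b ≤ 1 + bJ` if `J ≥ 1` by ESC. FAB with `L = b`. For `J = 0`:
`Pk b z 0 = Fb .. 0 = 1`. -/
def SumStmt : Prop :=
  ∃ C : ℝ, 0 < C ∧ ∀ (b J : ℕ) (z : ℂ), 1 ≤ b → ‖av (1 + b * J) z‖ ≤ 16 →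
    ∑ k ∈ Finset.range ((2 ^ b) ^ J), ‖Pk b z k‖ ^ 2 ≤ (1 + C * b * 2 ^ b) ^ J

end Pool.Agent.GLE
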