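import Pool.Agent.GLE.Defs

/-! Squad GLE, statements of blocks C (calculus in the plane), E (energy), Z (assembly). -/

namespace Pool.Agent.GLE

open Polynomial MeasureTheory Filter Topology

/-- **RDG.** General radial integration lemma. `G` is the gradient of `Φ` outside of the
exceptional set `E`, which meets every ray in a countable set.
PROOF. Translate so that `a = 0` (measure preserving). Polar coordinates
(`Complex.integral_comp_polarCoord_symm`, and the corresponding integrability statement):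
`z = a + ρ e^(iθ)`, `Vg ε (z - a) = e^(iθ) / ρ` if `ρ > ε` and `0` otherwise, so
`ρ * (conj (Vg ε (z-a)) * G z).re = 1_(ρ>ε) (e^(-iθ) * G z).re`, which is bounded by
`K / (1 + ‖z‖) ^ 2`, hence integrable in `ρ` over `(0, ∞)` uniformly in `θ` (`‖z‖ ≥ ρ - ‖a‖`) and on
the product `(0, ∞) × (-π, π)`. For fixed `θ` the function `h ρ = Φ (a + ρ e^(iθ))` is continuous
and has derivative `(e^(-iθ) * G z).re = inner ℝ (G z) (e^(iθ))` outside of a countable set, so on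
every `[ε, R]` `∫ h' = h R - h ε`
(`MeasureTheory.integral_eq_of_hasDerivWithinAt_off_countable_of_le` or
`intervalIntegral.integral_eq_of_hasDerivAt_off_countable`... any version with a countable
exceptional set), and `R → ∞`: `∫_ε^∞ h' = - h ε` since `Φ → 0` at infinity. Integrate over `θ`:
`- ∫_(-π)^π Φ (a + ε e^(iθ)) dθ = - 2 π circleAverage Φ a ε` (periodicity; for `ε = 0` the circle
average is `Φ a`). -/
def RdgStmt : Prop :=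
  ∀ (Φ : ℂ → ℝ) (G : ℂ → ℂ) (K : ℝ) (E : Set ℂ), Continuous Φ → Tendsto Φ (cocompact ℂ) (𝓝 0) →
    Measurable G → (∀ z, ‖G z‖ ≤ K / (1 + ‖z‖) ^ 2) →
    (∀ z, z ∉ E → HasFDerivAt Φ (innerSL ℝ (G z)) z) →
    (∀ a w : ℂ, ‖w‖ = 1 → {ρ : ℝ | a + (ρ : ℂ) * w ∈ E}.Countable) →
    ∀ (a : ℂ) (ε : ℝ), 0 ≤ ε →
      Integrable (fun z => ((starRingEnd ℂ) (Vg ε (z - a)) * G z).re) ∧
      ∫ z, ((starRingEnd ℂ) (Vg ε (z - a)) * G z).re = -(2 * Real.pi) * Real.circleAverage Φ a ε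

/-- **RAD.** The case of a `C^1` function with compact support.
PROOF. RDG with `Φ = φ`, `G = grad φ`, `E = ∅`. `G` is continuous with compact support, so bounded by
`K / (1 + ‖z‖) ^ 2` for some `K`; `fderiv ℝ φ z w = Re w * fderiv φ z 1 + Im w * fderiv φ z I =
inner ℝ (grad φ z) w`. -/
def RadStmt : Prop :=
  ∀ (φ : ℂ → ℝ), ContDiff ℝ 1 φ → HasCompactSupport φ →
    Continuous (grad φ) ∧ HasCompactSupport (grad φ) ∧ MemLp (grad φ) 2 volume ∧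
    ∀ (a : ℂ) (ε : ℝ), 0 ≤ ε →
      Integrable (fun z => ((starRingEnd ℂ) (Vg ε (z - a)) * grad φ z).re) ∧
      ∫ z, ((starRingEnd ℂ) (Vg ε (z - a)) * grad φ z).re =
        -(2 * Real.pi) * Real.circleAverage φ a ε

/-- **GRM.** Energy of a neutral system of smeared charges.
PROOF. `G z = ∑ c_i Vg ε (z - a_i)`, `Φ z = ∑ c_i log (max ‖z - a_i‖ ε)`. `Φ` is continuous; since
`∑ c_i = 0`, for large `z` `Φ z = ∑ c_i log (‖z - a_i‖ / ‖z‖) → 0`. `‖Vg ε‖ ≤ 1 / ε` everywhere and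
for large `z` `conj (G z) = ∑ c_i (1 / (z - a_i) - 1 / z) = ∑ c_i a_i / (z (z - a_i))` is
`O (1 / ‖z‖ ^ 2)`; so `‖G z‖ ≤ K / (1 + ‖z‖) ^ 2` for some `K`. Outside of the circles
`‖z - a_i‖ = ε` the function `Φ` has gradient `G` (`log ‖z‖` has gradient `z / ‖z‖ ^ 2`), and a line
meets a circle in at most two points. MemLp 2: `(1 + ‖z‖) ^ (-4)` is integrable in the plane. Then
`∫ ‖G‖ ^ 2 = ∑_i c_i ∫ (conj (Vg ε (z - a_i)) * G z).re = ∑_i c_i (-2π) circleAverage Φ a_i ε` (RDG)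
`= -2π ∑_(i,j) c_i c_j Ek ε a_i a_j` (linearity of the circle average, continuous functions). -/
def GrmStmt : Prop :=
  ∀ (ι : Type) [Fintype ι] (a : ι → ℂ) (c : ι → ℝ) (ε : ℝ), 0 < ε → ∑ i, c i = 0 →
    MemLp (fun z => ∑ i, (c i : ℂ) * Vg ε (z - a i)) 2 volume ∧
    ∫ z, ‖∑ i, (c i : ℂ) * Vg ε (z - a i)‖ ^ 2 =
      -(2 * Real.pi) * ∑ i, ∑ j, c i * c j * Ek ε (a i) (a j)

/-- **ENK.** Properties of the smeared kernel.
PROOF. (i) On the circle `‖z - a‖ = ε`. (ii) `z = a + ε e^(iθ)`: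
`‖a - b + ε e^(iθ)‖ = ‖b + ε e^(i(θ+π)) - a‖`, shift the angle by `π` (periodicity). (iii) The circle
average of `log ‖z - b‖` over `|z - a| = ε` is `log (max ‖a - b‖ ε)`
(`circleAverage_log_norm_sub_const_eq_log_radius_add_posLog`,
`circleAverage_log_norm_sub_const_of_mem_closedBall`), which is `≥ log ‖a - b‖`; the average is
monotone (`log (max ‖z-b‖ ε) ≥ log ‖z - b‖`; at `z = b` Lean has `log 0 = 0`, avoid this single point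
by an a.e. comparison, or compare with `log (max ..)` only off that point). (iv) In the same way
`log (max ‖z - b‖ ε)` is the average of `log ‖w - b‖` over `|w - z| = ε`. So
`∑_b log (max ‖z - b‖ ε)` is the average over `|w - z| = ε` of `∑_b log ‖w - b‖`, which is
`log ‖∏ (w - b)‖ ≤ log K` for all but finitely many `w` on the circle (all `w` not in `Z`). For
`|z - a| = ε` we have `‖w - a‖ ≤ 2 ε`. Average over `z`. -/
def EnkStmt : Prop :=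
  (∀ (ε : ℝ) (a : ℂ), 0 < ε → Ek ε a a = Real.log ε) ∧
  (∀ (ε : ℝ) (a b : ℂ), 0 < ε → Ek ε a b = Ek ε b a) ∧
  (∀ (ε : ℝ) (a b : ℂ), 0 < ε → a ≠ b → Real.log ‖a - b‖ ≤ Ek ε a b) ∧
  (∀ (ε K : ℝ) (a : ℂ) (Z : Finset ℂ), 0 < ε → 1 ≤ K →
    (∀ w : ℂ, ‖w - a‖ ≤ 2 * ε → ‖∏ b ∈ Z, (w - b)‖ ≤ K) → ∑ b ∈ Z, Ek ε a b ≤ Real.log K)

/-- **ARA.** Area of a lemniscate, counted with multiplicity.
PROOF. Let `η t = (max 0 (512 - t)) ^ 2 / 512`, of class `C^1` on `ℝ`, zero for `t ≥ 512`,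
`-η' t = 2 max(0, 512 - t) / 512 ≥ 1` for `t ≤ 256` and `≥ 0` everywhere, `η 0 = 512`. Let
`φ z = η (‖p z‖ ^ 2)`, `C^1` with compact support if `natDegree p ≥ 1` (`‖p z‖ → ∞`); its gradient is
`η' (‖p‖ ^ 2) * 2 * p * conj p'`. RAD with `ε = 0` at every root `a` of `p` (with multiplicity) and
sum: `∑_a conj (Vg 0 (z - a)) = ∑_a 1 / (z - a) = p' / p` for `z` not a root (a.e.), so
`∫ 2 η' (‖p‖ ^ 2) ‖p'‖ ^ 2 = -2π ∑_a φ a = -2π * natDegree p * 512`. The left side restricted to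
`‖p‖ ≤ 16` gives the claim. Degree `0`: `p' = 0`. -/
def AraStmt : Prop :=
  ∀ p : ℂ[X], p.Monic → (1 ≤ p.natDegree → IsCompact {z : ℂ | ‖p.eval z‖ ≤ 16}) ∧
    ∫ z in {z : ℂ | ‖p.eval z‖ ≤ 16}, ‖(derivative p).eval z‖ ^ 2 ≤
      512 * Real.pi * p.natDegree

/-- **HAR.** Dirichlet integral of a harmonic function times a cut off.
PROOF. `u = Re P` is smooth and harmonic, `φ = u Θ`. Pointwise
`‖∇φ‖ ^ 2 = u ^ 2 ‖∇Θ‖ ^ 2 + ∇u · ∇(u Θ ^ 2)` (both sides: `Θ² |∇u|² + 2 u Θ ∇u·∇Θ + u² |∇Θ|²`). With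
`F1 = u Θ ^ 2 ∂_x u`, `F2 = u Θ ^ 2 ∂_y u` (`C^1`, compact support):
`∂_x F1 + ∂_y F2 = ∇(u Θ ^ 2) · ∇u + u Θ ^ 2 Δu` and `Δu = 0`. The integral of `∂_x F1` and of
`∂_y F2` is `0` (`integral_fderiv_eq_zero`-like lemmas; e.g.
`integral_mul_fderiv_eq_neg_fderiv_mul_of_integrable` with a constant or
`integral_bilinear_hasLineDerivAt_right_eq_neg_left_of_integrable` of
Mathlib/Analysis/Calculus/LineDeriv/IntegrationByParts). Concretely `∂_x u = Re P'`,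
`∂_y u = - Im P'`, `Δu = Re P'' - Re P'' = 0`. -/
def HarStmt : Prop :=
  ∀ (P : ℂ[X]) (Θ : ℂ → ℝ), ContDiff ℝ 1 Θ → HasCompactSupport Θ →
    ∫ z, ‖grad (fun z => (P.eval z).re * Θ z) z‖ ^ 2 = ∫ z, (P.eval z).re ^ 2 * ‖grad Θ z‖ ^ 2

/-- **THE.** The cut off functions.
PROOF. `av m` is a polynomial map in `c` (holomorphic), so `Th m` is smooth. Compact support for
`m ≥ 1`: `‖av m z‖ ≥ ‖z‖` for `‖z‖ > 2` (ESC argument), so `Th m z = 0` for `‖z‖ > 16`. Values: the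
argument is `≥ 1` if `‖av m z‖ ≤ 4` and `≤ 0` if `‖av m z‖ ≥ 16`. Gradient:
`grad (‖av m‖ ^ 2) z = 2 * av m z * conj (deriv (av m) z)`, so
`grad (Th m) z = - s' ((256 - ‖av m z‖²)/240) / 240 * 2 * av m z * conj (deriv (av m) z)` where `s`
is the smooth transition; `s'` is continuous and zero outside of `[0, 1]`, so bounded, and where it
is not zero `‖av m z‖ ≤ 16`. -/
def TheStmt : Prop :=
  ∃ C : ℝ, 0 < C ∧ ∀ m : ℕ, 1 ≤ m → ContDiff ℝ 1 (Th m) ∧ HasCompactSupport (Th m) ∧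
    (∀ z, ‖av m z‖ ≤ 4 → Th m z = 1) ∧ (∀ z, 16 < ‖av m z‖ → Th m z = 0) ∧
    (∀ z, ‖grad (Th m) z‖ ^ 2 ≤ C * ‖deriv (av m) z‖ ^ 2) ∧
    (∀ z, 16 < ‖av m z‖ → grad (Th m) z = 0)

/-- **TST.** Energy of a block of test functions.
PROOF. HAR for `P k` (mapped to `ℂ[X]`) and `Θ = Th m`; sum over `k`:
`∑_k ∫ (Re P_k) ^ 2 ‖grad (Th m)‖ ^ 2 = ∫ (∑_k (Re P_k) ^ 2) ‖grad (Th m)‖ ^ 2`, the integrand is
at most `K * C * ‖deriv (av m) z‖ ^ 2` on `{‖av m z‖ ≤ 16}` and `0` outside (THE); ARA for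
`p = av m X` of degree `2 ^ (m-1)` (SEP). -/
def TstStmt : Prop :=
  ∃ C : ℝ, 0 < C ∧ ∀ (m : ℕ) (I : Finset ℕ) (P : ℕ → ℝ[X]) (K : ℝ), 1 ≤ m → 0 ≤ K →
    (∀ z : ℂ, ‖av m z‖ ≤ 16 → ∑ k ∈ I, ‖aeval z (P k)‖ ^ 2 ≤ K) →
    ∑ k ∈ I, ∫ z, ‖grad (fun z => (aeval z (P k)).re * Th m z) z‖ ^ 2 ≤ C * 2 ^ m * K

/-- **PRG.** Pairing of a test function with a smeared point of the Mandelbrot set.
PROOF. On the circle `z = a + h`, `‖h‖ = ε ≤ 5 ^ (-m)`: `‖av m z‖ ≤ ‖av m a‖ + 1 ≤ 3` (NBH), so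
`Th m z = 1` (THE) and the circle average is that of `Re P`, equal to `Re P(a)` by the mean value
property (`DiffContOnCl.circleAverage`-like lemmas, or `circleAverage_of_differentiable_on`, or
Cauchy's formula, or expand the polynomial in powers of `z - a`). The function is `C^1` with compact
support since `Th m` is; RAD. -/
def PrgStmt : Prop :=
  ∀ (m : ℕ) (P : ℝ[X]), 1 ≤ m →
    MemLp (grad (fun z => (aeval z P).re * Th m z)) 2 volume ∧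
    ∀ (a : ℂ) (ε : ℝ), inM a → 0 < ε → ε ≤ (1 / 5 : ℝ) ^ m →
      Integrable (fun z => ((starRingEnd ℂ) (Vg ε (z - a)) *
        grad (fun z => (aeval z P).re * Th m z) z).re) ∧
      ∫ z, ((starRingEnd ℂ) (Vg ε (z - a)) * grad (fun z => (aeval z P).re * Th m z) z).re =
        -(2 * Real.pi) * (aeval a P).re

/-- **ENB.** Energy of the charge `S - (d / N) Z`, where `S` is the root set of `g`, `Z` the root
set of `av M X`, `N = 2 ^ (M-1)`, `d = natDegree g ≤ N`, smeared at scale `ε = 5 ^ (-M) / 2`.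
PROOF. GRM with `ι = S ⊕ Z` (as types), coefficients `1` on `S` and `-d/N` on `Z` (`|S| = d`,
`|Z| = N` by ROO, SEP): `(1/2π) ∫ ‖Y‖ ^ 2 = - ∑_(a,a' ∈ S) Ek a a' + 2 (d/N) ∑_(a ∈ S, b ∈ Z) Ek a b
- (d/N) ^ 2 ∑_(b,b' ∈ Z) Ek b b'` (ENK ii). First: `≤ d log (1/ε) - ∑_(a≠a') log ‖a - a'‖ ≤
d log (1/ε)` (ENK i, iii, ROO). Third: the same, `≤ (d/N)^2 N log (1/ε) ≤ d log (1/ε)`. Second:
for `a ∈ S ⊆ M` and `‖w - a‖ ≤ 2 ε = 5 ^ (-M)` we have `‖av M w‖ ≤ 3` (NBH), and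
`av M w = ∏_(b ∈ Z) (w - b)`, so ENK iv gives `∑_b Ek a b ≤ log 3`, and the term is
`≤ 2 d^2/N log 3 ≤ 2 d log 3`. Total `≤ d (2 M log 5 + 2 log 2 + 2 log 3) ≤ 7 d M`, and
`14 π ≤ 44`. -/
def EnbStmt : Prop :=
  ∀ (M : ℕ) (g : ℤ[X]), 1 ≤ M → g.Monic → Irreducible g → (∀ z ∈ rt g, inM z) →
    g.natDegree ≤ 2 ^ (M - 1) →
    MemLp (fun z : ℂ => (∑ a ∈ rt g, Vg ((1 / 5 : ℝ) ^ M / 2) (z - a)) -
      ((g.natDegree : ℂ) / 2 ^ (M - 1)) *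
        ∑ b ∈ rt (av M (X : ℤ[X])), Vg ((1 / 5 : ℝ) ^ M / 2) (z - b)) 2 volume ∧
    ∫ z : ℂ, ‖(∑ a ∈ rt g, Vg ((1 / 5 : ℝ) ^ M / 2) (z - a)) -
      ((g.natDegree : ℂ) / 2 ^ (M - 1)) *
        ∑ b ∈ rt (av M (X : ℤ[X])), Vg ((1 / 5 : ℝ) ^ M / 2) (z - b)‖ ^ 2 ≤
      44 * g.natDegree * M

/-- **KAP.** The weighted sum of the energies of the test functions.
PROOF. Let `Ct` be the constant of TST and `Cs` that of SUM. Choose `b ≥ 1` with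
`1 + Cs b 2 ^ b ≤ (2 ^ b) ^ (1 + e)` (possible, `b 2 ^ b = o (2 ^ (b (1 + e)))`), `B = 2 ^ b`. For
`k ≥ 1` let `J(k) = Nat.log B k + 1`, so `B ^ (J-1) ≤ k < B ^ J`. For `1 ≤ k < B ^ J0` we have
`1 ≤ J(k) ≤ J0`. Fix `J`; on `{‖av (1 + bJ) z‖ ≤ 16}` the sum of `‖Pk b z k‖ ^ 2` over
`B^(J-1) ≤ k < B^J` is `≤ (1 + Cs b 2^b) ^ J ≤ B ^ (J (1+e))` (SUM), and
`Pk b z k = aeval z (Pk b X k)` (MON), so TST with `m = 1 + bJ`:
`∑_(k in block J) tau b k ≤ Ct 2 B ^ J B ^ (J (1+e))`. Multiply by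
`k ^ (-2-2e) ≤ B ^ (-(J-1)(2+2e))` and sum over `J`:
`≤ 2 Ct B ^ (2+2e) ∑_J B ^ (-e J)`, a convergent geometric series, independent of `J0`. -/
def KapStmt : Prop :=
  ∀ e : ℝ, 0 < e → ∃ b : ℕ, 1 ≤ b ∧ ∃ W : ℝ, 0 < W ∧ ∀ J0 : ℕ,
    ∑ k ∈ Finset.Ico 1 (2 ^ (b * J0)), tau b k * (k : ℝ) ^ (-2 - 2 * e) ≤ W

/-- **INE.** The main inequality.
PROOF. `M = 1 + b J0`, `N = 2 ^ (b J0) = 2 ^ (M-1)`, `ε = 5 ^ (-M) / 2`, `Z` = roots of `av M X`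
(`N` of them, all in `M`: SEP, ROO), `S_i = rt (g i)`, `D_i = natDegree (g i) ≤ D ≤ N`. `κ` from PIV;
`κ_0 = 0`, `1 ≤ κ_j < ∑ D_i ≤ (r+1) D ≤ N` for `j ≥ 1`. For `j ≥ 1` put
`P_j = Pk b X κ_j - C μ_j`, `μ_j = (1/N) ∑_(z ∈ Z) Re (Pk b z κ_j)`, a real monic polynomial of
degree `κ_j ≥ 1` (MON), and `P_0 = 1`. HAL with
`u_0 = 0, s_0 = √D`, `u_j = - grad (ph b κ_j)`, `s_j = 0` for `j ≥ 1`,
`v_i = (1/2π) Y_i` with `Y_i` the function of ENB for `g i`, `t_i = D_i / √D`. Entries: row `0` is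
`D_i = ∑_(S_i) Re P_0`. Row `j ≥ 1`: PRG at level `m = 1 + b (Nat.log (2^b) κ_j + 1) ≤ M`
(`κ_j < (2^b)^J0`), `ε ≤ 5 ^ (-m)`, `ph b k z = (aeval z (Pk b X k)).re * Th m z` (MON): the entry is
`-(1/2π) (∑_(a ∈ S_i) (-2π) Re P(a) - (D_i/N) ∑_(b ∈ Z) (-2π) Re P(b)) = ∑_(S_i) Re P(a) - D_i μ_j =
∑_(a ∈ S_i) Re P_j(a)` with `P = Pk b X κ_j`. So the determinant is the one of PIV, and
`(∏_(j≥1) κ_j) ^ 2 ≤ det ^ 2 ≤ D ∏_(j≥1) tau b κ_j ∏_i ((1/4π²) 44 D_i M + D_i ^ 2 / D)`, and each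
factor of the last product is `≤ 3 D M`. Take for the statement the map `j ↦ κ (j+1)`. -/
def IneStmt : Prop :=
  ∀ (b D J0 r : ℕ) (g : Fin (r + 1) → ℤ[X]), 1 ≤ b → 1 ≤ D → GF D (r + 1) g →
    (r + 1) * D ≤ 2 ^ (b * J0) →
    ∃ κ : Fin r → ℕ, Function.Injective κ ∧ (∀ j, 1 ≤ κ j ∧ κ j < 2 ^ (b * J0)) ∧
      (∏ j, (κ j : ℝ)) ^ 2 ≤ D * (∏ j, tau b (κ j)) * (3 * D * (1 + b * J0 : ℝ)) ^ (r + 1)

/-- **AMG.** Arithmetic-geometric mean step.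
PROOF. `τ_j ≥ 0`. Write `x_j = τ (κ j) * (κ j) ^ (-2 - 2e) ≥ 0`; the `κ j` are distinct elements of
`[1, N)`, so `∑_j x_j ≤ W`, and AM-GM (`Real.inner_le_nnorm_mul_nnorm` no; use
`Real.geom_mean_le_arith_mean_weighted` or `inner_le..`; with equal weights) gives
`∏ x_j ≤ (W / r) ^ r`. `∏ τ (κ j) = ∏ x_j * (∏ κ j) ^ (2 + 2e) ≤ (W/r) ^ r (∏ κ j) ^ 2 N ^ (2 e r)`.
Insert in the hypothesis and divide by `(∏ κ j) ^ 2 > 0`:
`1 ≤ D (W / r) ^ r N ^ (2 e r) Q ^ (r+1)`; multiply by `r ^ r`. -/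
def AmgStmt : Prop :=
  ∀ (r N : ℕ) (κ : Fin r → ℕ) (τ : ℕ → ℝ) (e W D Q : ℝ), 1 ≤ r → 0 < e → 0 < W → 0 < D → 0 < Q →
    (∀ k, 0 ≤ τ k) → Function.Injective κ → (∀ j, 1 ≤ κ j ∧ κ j < N) →
    ∑ k ∈ Finset.Ico 1 N, τ k * (k : ℝ) ^ (-2 - 2 * e) ≤ W →
    (∏ j, (κ j : ℝ)) ^ 2 ≤ D * (∏ j, τ (κ j)) * Q ^ (r + 1) →
    (r : ℝ) ^ r ≤ D * Q * (W * (N : ℝ) ^ (2 * e) * Q) ^ r

/-- **NUM.** Numerical conclusion for families of at most `D ^ 3` polynomials.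
PROOF. Given `ε` put `e = ε / 20` (or smaller), `b, W` from KAP. Let `D ≥ 2`, `1 ≤ r`,
`r + 1 ≤ D ^ 3` (for `r = 0` or `r ≤ D` nothing to prove). Let `J0` be the least integer with
`(r+1) D ≤ 2 ^ (b J0)`; `N = 2 ^ (b J0) ≤ 2 ^ b (r+1) D ≤ 2 ^ b D ^ 4` and
`M = 1 + b J0 ≤ 1 + b + 4 log_2 D + 1`, so `Q = 3 D M ≤ C D log (D+1)`. INE, AMG, KAP
(`tau ≥ 0` as an integral): `r ^ r ≤ D Q (W N ^ (2e) Q) ^ r`. If `r ≥ D` then
`(D Q) ^ (1/r) ≤ (D Q) ^ (1/D) ≤ C`, so `r ≤ C W (2 ^ b D ^ 4) ^ (2e) Q ≤ C' D ^ (1 + 8 e) log (D+1)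
≤ C'' D ^ (1 + 9 e)`. -/
def NumStmt : Prop :=
  ∀ ε : ℝ, 0 < ε → ∃ C : ℝ, 0 < C ∧ ∀ (D r : ℕ) (g : Fin r → ℤ[X]), 1 ≤ D → GF D r g →
    r ≤ D ^ 3 → (r : ℝ) ≤ C * (D : ℝ) ^ (1 + ε)

/-- **FIN.** All families.
PROOF. We may assume `ε ≤ 1/2` (for larger `ε` the statement is weaker since `D ≥ 1`). `C` from NUM;
let `D0` be such that `C D ^ (1 + ε) < D ^ 3` for all `D ≥ D0`. If `D ≥ D0` and `r ≥ D ^ 3` then a
subfamily of exactly `D ^ 3` members has `D ^ 3 ≤ C D ^ (1+ε) < D ^ 3`, contradiction; so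
`r < D ^ 3` and NUM applies. If `D < D0` the family is also good for `D0` in place of `D`, so
`r ≤ C D0 ^ (1+ε)`. Take the maximum constant. The set is then finite (any `n` elements of it form
a good family) with the bound for `ncard`. -/
def FinStmt : Prop :=
  ∀ ε : ℝ, 0 < ε → ∃ C : ℝ, 0 < C ∧ ∀ D : ℕ, 1 ≤ D →
    {g : ℤ[X] | g.Monic ∧ Irreducible g ∧ g.natDegree ≤ D ∧ ∀ z ∈ rt g, inM z}.Finite ∧
    ({g : ℤ[X] | g.Monic ∧ Irreducible g ∧ g.natDegree ≤ D ∧ ∀ z ∈ rt g, inM z}.ncard : ℝ) ≤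
      C * (D : ℝ) ^ (1 + ε)

/-- **CEN.** Centres. The final theorem of the squad.
PROOF. A parameter `c` with `0` periodic is a root of a monic integer polynomial `av n X` (SEP), so
an algebraic integer; its minimal polynomial over `ℚ` is the image of a monic irreducible integer
polynomial `g = minpoly ℤ c` (`minpoly.isIntegrallyClosed_eq_field_fractions'`) which divides
`av n X`, so all its roots `z` satisfy `av n z = 0` and are in `M` (ESC). (1) FIN. (2) each minimal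
polynomial of degree `≤ D` has at most `D` roots: `D * C D ^ (1+ε)`. (3) Let `n ≥ 1` and
`D = ⌈2 ^ (n/2)⌉`. The minimal polynomials of the parameters of exact period `n` are distinct
irreducible factors of `av n X` of degree `2 ^ (n-1)`, so at most `2 ^ (n-1) / D ≤ 2 ^ (n/2)` of
them have degree `≥ D` (their root sets are disjoint), and at most `C D ^ (1+ε)` have degree `≤ D`
by (1). (4) (2) with `D = ⌊2 ^ ((1/2 - ε) n)⌋` (if `D ≥ 1`, and `ε < 1/2`; for `ε ≥ 1/2` only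
degrees `≤ 1` count: use `D = 1`) and exponent `2 + ε'`, `ε' = 2 ε`: `(1/2 - ε) (2 + 2 ε) =
1 - ε - 2 ε² ≤ 1 - ε`. For `ε ≥ 1` the bound `C * 2 ^ ((1-ε) n)` can be small: therefore `ε < 1/2`
is assumed in (4). -/
def CenStmt : Prop :=
  ∀ ε : ℝ, 0 < ε → ∃ C : ℝ, 0 < C ∧
    (∀ D : ℕ, 1 ≤ D →
      {p : ℚ[X] | ∃ c : ℂ, (∃ n, 1 ≤ n ∧ (fun z : ℂ => z ^ 2 + c)^[n] 0 = 0) ∧
        p = minpoly ℚ c ∧ p.natDegree ≤ D}.Finite ∧
      ({p : ℚ[X] | ∃ c : ℂ, (∃ n, 1 ≤ n ∧ (fun z : ℂ => z ^ 2 + c)^[n] 0 = 0) ∧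
        p = minpoly ℚ c ∧ p.natDegree ≤ D}.ncard : ℝ) ≤ C * (D : ℝ) ^ (1 + ε)) ∧
    (∀ D : ℕ, 1 ≤ D →
      {c : ℂ | (∃ n, 1 ≤ n ∧ (fun z : ℂ => z ^ 2 + c)^[n] 0 = 0) ∧
        (minpoly ℚ c).natDegree ≤ D}.Finite ∧
      ({c : ℂ | (∃ n, 1 ≤ n ∧ (fun z : ℂ => z ^ 2 + c)^[n] 0 = 0) ∧
        (minpoly ℚ c).natDegree ≤ D}.ncard : ℝ) ≤ C * (D : ℝ) ^ (2 + ε)) ∧
    (∀ n : ℕ, 1 ≤ n →
      ({p : ℚ[X] | ∃ c : ℂ, Function.minimalPeriod (fun z : ℂ => z ^ 2 + c) 0 = n ∧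
        p = minpoly ℚ c}.ncard : ℝ) ≤ C * (2 : ℝ) ^ ((1 / 2 + ε) * n)) ∧
    (ε < 1 / 2 → ∀ n : ℕ, 1 ≤ n →
      ({c : ℂ | Function.minimalPeriod (fun z : ℂ => z ^ 2 + c) 0 = n ∧
        ((minpoly ℚ c).natDegree : ℝ) ≤ (2 : ℝ) ^ ((1 / 2 - ε) * n)}.ncard : ℝ) ≤
          C * (2 : ℝ) ^ ((1 - ε) * n))

end Pool.Agent.GLE
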